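import Pool.Agent.Helper41_DPF.End

/-!
# Squad DPF, row EXT
-/

namespace Pool.Agent.DPF.H41

open Finset Pool.Agent.DPS

open Classical in
/-- the indicator of kept sets -/
noncomputable def ind {n : ℕ} (st : ℕ → ℕ) (j : Fin n) (E : Finset (Fin n)) : ℝ :=
  if kp st j E then 1 else 0

theorem ind_one {n : ℕ} {st : ℕ → ℕ} {j : Fin n} {E : Finset (Fin n)} (h : kp st j E) :
    ind st j E = 1 := by
  unfold ind
  exact if_pos h

theorem ind_zero {n : ℕ} {st : ℕ → ℕ} {j : Fin n} {E : Finset (Fin n)} (h : ¬ kp st j E) :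
    ind st j E = 0 := by
  unfold ind
  exact if_neg h

theorem ind_nonneg {n : ℕ} (st : ℕ → ℕ) (j : Fin n) (E : Finset (Fin n)) : 0 ≤ ind st j E := by
  unfold ind
  split_ifs <;> norm_num

theorem ind_le {n : ℕ} (st : ℕ → ℕ) (j : Fin n) (E : Finset (Fin n)) : ind st j E ≤ 1 := by
  unfold ind
  split_ifs <;> norm_num

theorem hh_eq {n : ℕ} (st : ℕ → ℕ) (j : Fin n) (X : Finset (Finset (Fin n)))
    (m : Finset (Fin n) → ℝ) : hh st j X m = ∑ E ∈ X, m E * ind st j E := by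
  unfold hh ind
  refine Finset.sum_congr rfl fun E _ => ?_
  split_ifs <;> simp

theorem gg_eq {n : ℕ} (ν k : ℕ) (st : ℕ → ℕ) (j : Fin n) (X : Finset (Finset (Fin n)))
    (m : Finset (Fin n) → ℝ) : gg ν k st j X m = ∑ E ∈ X, se ν k E.card * m E * ind st j E := by
  unfold gg ind
  refine Finset.sum_congr rfl fun E _ => ?_
  split_ifs <;> simp

theorem gy_eq {n : ℕ} (ν k : ℕ) (st : ℕ → ℕ) (j : Fin n) (X : Finset (Finset (Fin n)))
    (m : Finset (Fin n) → ℝ) (y : Fin n) : gy ν k st j X m y =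
      ∑ E ∈ X, (if y ∈ E then m E else 0) * (se ν k E.card * ind st j E - 1) := by
  unfold gy ind
  refine Finset.sum_congr rfl fun E _ => ?_
  split_ifs <;> simp

theorem ex_eq {n k t L ν : ℕ} (ρ : Rl k t L ν) (f : Fin ρ.N → Fin n → ℝ) :
    ex ρ f = ∑ p ∈ (univ : Finset (Fin ρ.N)) ×ˢ ini n L, (ρ.w p.1 / L) * f p.1 p.2 := by
  unfold ex
  rw [Finset.sum_product]
  refine Finset.sum_congr rfl fun i _ => ?_
  change ρ.w i * ((∑ j ∈ ini n L, f i j) / L) = ∑ y ∈ ini n L, ρ.w i / (L : ℝ) * f i y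
  rw [← Finset.mul_sum]
  ring

theorem w_sum {n k t L ν : ℕ} (ρ : Rl k t L ν) (hL : 1 ≤ L) (hLn : L ≤ n) :
    ∑ p ∈ (univ : Finset (Fin ρ.N)) ×ˢ ini n L, (ρ.w p.1 / (L : ℝ)) = 1 := by
  have hL0 : (L : ℝ) ≠ 0 := by
    have : L ≠ 0 := by omega
    exact_mod_cast this
  rw [Finset.sum_product]
  rw [← ρ.sum_one]
  refine Finset.sum_congr rfl fun i _ => ?_
  change ∑ y ∈ ini n L, ρ.w i / (L : ℝ) = ρ.w i
  rw [Finset.sum_const, card_ini hLn, nsmul_eq_mul]
  field_simp

theorem ex_ind {n k t L ν : ℕ} (ρ : Rl k t L ν) (hL : 1 ≤ L) (hLn : L ≤ n)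
    {E : Finset (Fin n)} (hE : E ⊆ ini n L) :
    ∑ p ∈ (univ : Finset (Fin ρ.N)) ×ˢ ini n L, (ρ.w p.1 / (L : ℝ)) * ind (ρ.st p.1) p.2 E =
      ∑ i, ρ.w i * (if ρ.st i E.card = 0 then 0 else if ρ.st i E.card = 1 then 1 else
        ((L : ℝ) - E.card) / L) := by
  classical
  have hL0 : (L : ℝ) ≠ 0 := by
    have : L ≠ 0 := by omega
    exact_mod_cast this
  rw [Finset.sum_product]
  refine Finset.sum_congr rfl fun i _ => ?_
  change ∑ y ∈ ini n L, ρ.w i / (L : ℝ) * ind (ρ.st i) y E = _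
  rw [← Finset.mul_sum]
  have hc : ∀ x y : ℝ, x = L * y → ρ.w i / L * x = ρ.w i * y := by
    rintro x y rfl
    field_simp
  apply hc
  by_cases h0 : ρ.st i E.card = 0
  · rw [if_pos h0, mul_zero]
    refine Finset.sum_eq_zero fun j _ => ?_
    refine ind_zero ?_
    rintro (h | ⟨h, -⟩)
    · omega
    · omega
  · rw [if_neg h0]
    by_cases h1 : ρ.st i E.card = 1
    · rw [if_pos h1, mul_one]
      rw [Finset.sum_congr rfl (fun j _ => ind_one (st := ρ.st i) (j := j) (E := E) (Or.inl h1)),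
        Finset.sum_const, card_ini hLn, nsmul_eq_mul, mul_one]
    · rw [if_neg h1]
      have h2 : 2 ≤ ρ.st i E.card := by omega
      have h3 : ∀ j : Fin n, ind (ρ.st i) j E = if j ∉ E then 1 else 0 := by
        intro j
        by_cases hj : j ∈ E
        · rw [ind_zero, if_neg (not_not.2 hj)]
          rintro (h | ⟨-, h⟩)
          · exact h1 h
          · exact h hj
        · rw [ind_one (Or.inr ⟨h2, hj⟩), if_pos hj]
      rw [Finset.sum_congr rfl (fun j _ => h3 j), ← Finset.sum_filter, Finset.sum_const,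
        nsmul_eq_mul, mul_one]
      have h4 : (ini n L).filter (fun j => j ∉ E) = ini n L \ E := by
        ext j
        rw [Finset.mem_filter, Finset.mem_sdiff]
      rw [h4, Finset.card_sdiff_of_subset hE, card_ini hLn,
        Nat.cast_sub ((Finset.card_le_card hE).trans (card_ini hLn).le)]
      field_simp

theorem lin {ι κ : Type*} (S : Finset ι) (Y : Finset κ) (w : ι → ℝ) (f : ι → κ → ℝ) (B : ι → ℝ)
    (c : ℝ) : ∑ p ∈ S, w p * ((∑ y ∈ Y, f p y) / c + B p) =
      (∑ y ∈ Y, ∑ p ∈ S, w p * f p y) / c + ∑ p ∈ S, w p * B p := by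
  simp_rw [mul_add]
  rw [Finset.sum_add_distrib]
  congr 1
  rw [Finset.sum_comm, Finset.sum_div]
  refine Finset.sum_congr rfl fun p _ => ?_
  rw [← Finset.mul_sum]
  ring

theorem ph_mono {θ x y : ℝ} (h : x ≤ y) : ph θ x ≤ ph θ y := by
  unfold ph
  have h1 : max (x - θ) 0 ≤ max (y - θ) 0 := max_le_max (by linarith) le_rfl
  exact pow_le_pow_left₀ (le_max_right _ _) h1 2

theorem ph_nonneg (θ x : ℝ) : 0 ≤ ph θ x := by
  unfold ph
  positivity

/-- EXT -/
theorem ext (hMNB : MNBStmt) : EXTStmt := by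
  intro n k t L ρ A X m hL hLn hA hX hm hTT θ a0
  classical
  obtain ⟨S, hS⟩ : ∃ S : Finset (Fin ρ.N × Fin n), S = (univ : Finset (Fin ρ.N)) ×ˢ ini n L :=
    ⟨_, rfl⟩
  obtain ⟨w, hw⟩ : ∃ w : Fin ρ.N × Fin n → ℝ, w = fun p => ρ.w p.1 / (L : ℝ) := ⟨_, rfl⟩
  have hw0 : ∀ p ∈ S, 0 ≤ w p := by
    intro p _
    rw [hw]
    exact div_nonneg (ρ.nonneg _) (Nat.cast_nonneg _)
  have hw1 : ∑ p ∈ S, w p = 1 := by
    rw [hS, hw]
    exact w_sum ρ hL hLn
  have hse : ∀ E ∈ X, 1 ≤ se (n - L) k E.card := by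
    intro E hE
    obtain ⟨-, -, -, -, h1, h2⟩ := hX E hE
    unfold se
    have h3 : (0 : ℝ) < (k : ℝ) - E.card := by
      have : (E.card : ℝ) < k := by exact_mod_cast h1
      linarith
    rw [le_div_iff₀ h3, one_mul]
    have h4 : (k : ℝ) ≤ E.card + ((n - L : ℕ) : ℝ) := by exact_mod_cast h2
    linarith
  -- the probability of being kept
  have hkeep : ∀ E ∈ X, 1 ≤ se (n - L) k E.card * ∑ p ∈ S, w p * ind (ρ.st p.1) p.2 E := by
    intro E hE
    obtain ⟨-, h0, h1, h2, h3, h4⟩ := hX E hE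
    have h5 := ρ.keep E.card h1 h2 h3 h4
    rw [hS, hw, ex_ind ρ hL hLn h0]
    exact h5
  obtain ⟨W, hW⟩ : ∃ W : ℝ, W = ∑ E ∈ X, m E := ⟨_, rfl⟩
  obtain ⟨H, hH⟩ : ∃ H : Fin ρ.N × Fin n → ℝ, H = fun p => hh (ρ.st p.1) p.2 X m := ⟨_, rfl⟩
  obtain ⟨G, hG⟩ : ∃ G : Fin ρ.N × Fin n → ℝ, G = fun p => gg (n - L) k (ρ.st p.1) p.2 X m :=
    ⟨_, rfl⟩
  obtain ⟨g, hg⟩ : ∃ g : Fin ρ.N × Fin n → Fin n → ℝ,
    g = fun p y => gy (n - L) k (ρ.st p.1) p.2 X m y := ⟨_, rfl⟩
  have hW0 : 0 ≤ W := by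
    rw [hW]
    exact Finset.sum_nonneg hm
  have hH0 : ∀ p, 0 ≤ H p := by
    intro p
    rw [hH]
    change 0 ≤ hh (ρ.st p.1) p.2 X m
    rw [hh_eq]
    exact Finset.sum_nonneg fun E hE => mul_nonneg (hm E hE) (ind_nonneg _ _ _)
  have hHW : ∀ p, H p ≤ W := by
    intro p
    rw [hH, hW]
    change hh (ρ.st p.1) p.2 X m ≤ _
    rw [hh_eq]
    refine Finset.sum_le_sum fun E hE => ?_
    calc m E * ind (ρ.st p.1) p.2 E ≤ m E * 1 :=
          mul_le_mul_of_nonneg_left (ind_le _ _ _) (hm E hE)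
      _ = m E := mul_one _
  have hGH : ∀ p, H p ≤ G p := by
    intro p
    rw [hH, hG]
    change hh (ρ.st p.1) p.2 X m ≤ gg (n - L) k (ρ.st p.1) p.2 X m
    rw [hh_eq, gg_eq]
    refine Finset.sum_le_sum fun E hE => ?_
    refine mul_le_mul_of_nonneg_right ?_ (ind_nonneg _ _ _)
    calc m E = 1 * m E := (one_mul _).symm
      _ ≤ se (n - L) k E.card * m E := mul_le_mul_of_nonneg_right (hse E hE) (hm E hE)
  have hG0 : ∀ p, H p = 0 → G p = 0 := by
    intro p hp
    rw [hH] at hp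
    change hh (ρ.st p.1) p.2 X m = 0 at hp
    rw [hh_eq] at hp
    rw [hG]
    change gg (n - L) k (ρ.st p.1) p.2 X m = 0
    rw [gg_eq]
    have h1 := (Finset.sum_eq_zero_iff_of_nonneg
      (fun E hE => mul_nonneg (hm E hE) (ind_nonneg (ρ.st p.1) p.2 E))).1 hp
    refine Finset.sum_eq_zero fun E hE => ?_
    rw [mul_assoc, h1 E hE, mul_zero]
  have hEG : W ≤ ∑ p ∈ S, w p * G p := by
    have h1 : ∑ p ∈ S, w p * G p =
        ∑ E ∈ X, m E * (se (n - L) k E.card * ∑ p ∈ S, w p * ind (ρ.st p.1) p.2 E) := by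
      rw [hG]
      simp only [gg_eq, Finset.mul_sum]
      rw [Finset.sum_comm]
      refine Finset.sum_congr rfl fun E _ => Finset.sum_congr rfl fun p _ => ?_
      ring
    rw [h1, hW]
    refine Finset.sum_le_sum fun E hE => ?_
    calc m E = m E * 1 := (mul_one _).symm
      _ ≤ _ := mul_le_mul_of_nonneg_left (hkeep E hE) (hm E hE)
  have hEg : ∀ y, 0 ≤ ∑ p ∈ S, w p * g p y := by
    intro y
    have h1 : ∑ p ∈ S, w p * g p y = ∑ E ∈ X, (if y ∈ E then m E else 0) *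
        (se (n - L) k E.card * (∑ p ∈ S, w p * ind (ρ.st p.1) p.2 E) - ∑ p ∈ S, w p) := by
      rw [hg]
      simp only [gy_eq, Finset.mul_sum]
      rw [Finset.sum_comm]
      refine Finset.sum_congr rfl fun E _ => ?_
      rw [← Finset.sum_sub_distrib, Finset.mul_sum]
      refine Finset.sum_congr rfl fun p _ => ?_
      ring
    rw [h1, hw1]
    refine Finset.sum_nonneg fun E hE => mul_nonneg ?_ ?_
    · split_ifs
      · exact hm E hE
      · exact le_rfl
    · linarith [hkeep E hE]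
  rw [ex_eq, ← hS]
  change 0 ≤ ∑ p ∈ S, ρ.w p.1 / (L : ℝ) *
    ((∑ y ∈ ini n L \ A, (ph θ (a0 + ∑ E ∈ X, m E + gy (n - L) k (ρ.st p.1) p.2 X m y) -
          ph θ (a0 + ∑ E ∈ X, m E))) / ((A.card : ℝ) + 1) +
        ((ph θ (a0 + hh (ρ.st p.1) p.2 X m) - ph θ (a0 + ∑ E ∈ X, m E)) +
          (gg (n - L) k (ρ.st p.1) p.2 X m - hh (ρ.st p.1) p.2 X m) *
            ((ph θ (a0 + hh (ρ.st p.1) p.2 X m) - ph θ a0) / hh (ρ.st p.1) p.2 X m)))
  rw [← hW]
  have hgoal : ∑ p ∈ S, ρ.w p.1 / (L : ℝ) *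
      ((∑ y ∈ ini n L \ A, (ph θ (a0 + W + gy (n - L) k (ρ.st p.1) p.2 X m y) -
          ph θ (a0 + W))) / ((A.card : ℝ) + 1) +
        ((ph θ (a0 + hh (ρ.st p.1) p.2 X m) - ph θ (a0 + W)) +
          (gg (n - L) k (ρ.st p.1) p.2 X m - hh (ρ.st p.1) p.2 X m) *
            ((ph θ (a0 + hh (ρ.st p.1) p.2 X m) - ph θ a0) / hh (ρ.st p.1) p.2 X m))) =
      ∑ p ∈ S, w p * ((∑ y ∈ ini n L \ A, (ph θ (a0 + W + g p y) - ph θ (a0 + W))) /
          ((A.card : ℝ) + 1) + ((ph θ (a0 + H p) - ph θ (a0 + W)) +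
          (G p - H p) * ((ph θ (a0 + H p) - ph θ a0) / H p))) := by
    rw [hw, hH, hG, hg]
  rw [hgoal]
  have hA1 : (0 : ℝ) < (A.card : ℝ) + 1 := by positivity
  rcases hTT with hXA | ⟨-, hTT⟩
  · -- the case `X = {A}`
    have hWm : W = m A := by rw [hW, hXA, Finset.sum_singleton]
    have hAX : A ∈ X := by rw [hXA]; exact Finset.mem_singleton_self A
    have h1 : ∀ p ∈ S, w p * ((∑ y ∈ ini n L \ A, (ph θ (a0 + W + g p y) - ph θ (a0 + W))) /
          ((A.card : ℝ) + 1) + ((ph θ (a0 + H p) - ph θ (a0 + W)) +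
          (G p - H p) * ((ph θ (a0 + H p) - ph θ a0) / H p))) =
        (ph θ (a0 + W) - ph θ a0) * (se (n - L) k A.card * (w p * ind (ρ.st p.1) p.2 A) - w p) := by
      intro p _
      have h2 : ∑ y ∈ ini n L \ A, (ph θ (a0 + W + g p y) - ph θ (a0 + W)) = 0 := by
        refine Finset.sum_eq_zero fun y hy => ?_
        have h3 : g p y = 0 := by
          rw [hg]
          change gy (n - L) k (ρ.st p.1) p.2 X m y = 0
          rw [gy_eq, hXA, Finset.sum_singleton, if_neg (Finset.mem_sdiff.1 hy).2, zero_mul]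
        rw [h3, add_zero, sub_self]
      have h3 : H p = m A * ind (ρ.st p.1) p.2 A := by
        rw [hH]
        change hh (ρ.st p.1) p.2 X m = _
        rw [hh_eq, hXA, Finset.sum_singleton]
      have h4 : G p = se (n - L) k A.card * m A * ind (ρ.st p.1) p.2 A := by
        rw [hG]
        change gg (n - L) k (ρ.st p.1) p.2 X m = _
        rw [gg_eq, hXA, Finset.sum_singleton]
      rw [h2, zero_div, zero_add, h3, h4, hWm]
      unfold ind
      by_cases hk : kp (ρ.st p.1) p.2 A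
      · rw [if_pos hk, mul_one, mul_one, mul_one]
        by_cases hmA : m A = 0
        · rw [hmA]
          simp
        · field_simp
          ring
      · rw [if_neg hk]
        simp
        ring
    rw [Finset.sum_congr rfl h1, ← Finset.mul_sum]
    refine mul_nonneg (sub_nonneg.2 (ph_mono (by linarith))) ?_
    rw [Finset.sum_sub_distrib, ← Finset.mul_sum, hw1]
    linarith [hkeep A hAX]
  -- the general case
  rcases le_total (a0 + W) θ with hθ | hθ
  · refine Finset.sum_nonneg fun p hp => mul_nonneg (hw0 p hp) ?_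
    have h1 : ph θ (a0 + W) = 0 := by
      unfold ph
      rw [max_eq_right (by linarith)]
      norm_num
    rw [h1]
    refine add_nonneg (div_nonneg (Finset.sum_nonneg fun y _ => ?_) hA1.le) (add_nonneg ?_ ?_)
    · rw [sub_zero]
      exact ph_nonneg _ _
    · rw [sub_zero]
      exact ph_nonneg _ _
    · exact mul_nonneg (sub_nonneg.2 (hGH p)) (div_nonneg (sub_nonneg.2 (ph_mono (by
        linarith [hH0 p]))) (hH0 p))
  rcases le_total a0 θ with hθ2 | hθ2
  · -- (b)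
    have h1 := hTT (a0 + W - θ) (by linarith) (by rw [← hW]; linarith)
    unfold TT at h1
    rw [ex_eq, ← hS] at h1
    refine h1.trans (le_of_eq ?_)
    refine Finset.sum_congr rfl fun p _ => ?_
    rw [hw]
    change ρ.w p.1 / (L : ℝ) * _ = ρ.w p.1 / (L : ℝ) * _
    congr 1
    rw [← hW]
    have e1 : hh (ρ.st p.1) p.2 X m = H p := by rw [hH]
    have e2 : gg (n - L) k (ρ.st p.1) p.2 X m = G p := by rw [hG]
    have e3 : ∀ y, gy (n - L) k (ρ.st p.1) p.2 X m y = g p y := by intro y; rw [hg]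
    simp only [e1, e2, e3]
    have e4 : ph θ (a0 + W) = (a0 + W - θ) ^ 2 := by
      unfold ph
      rw [max_eq_left (by linarith)]
    have e5 : ph θ a0 = 0 := by
      unfold ph
      rw [max_eq_right (by linarith)]
      norm_num
    have e6 : ∀ y, ph θ (a0 + W + g p y) = (max (a0 + W - θ + g p y) 0) ^ 2 := by
      intro y
      unfold ph
      rw [show a0 + W + g p y - θ = a0 + W - θ + g p y by ring]
    have e7 : ph θ (a0 + H p) = (max (a0 + W - θ - (W - H p)) 0) ^ 2 := by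
      unfold ph
      rw [show a0 + W - θ - (W - H p) = a0 + H p - θ by ring]
    rw [e4, e5, e7]
    simp only [e6]
    rw [add_sub_assoc]
    congr 1
    by_cases hp0 : H p = 0
    · rw [hp0, div_zero, div_zero, mul_zero, mul_zero, add_zero]
      have : max (a0 + W - θ - (W - 0)) 0 = 0 := max_eq_right (by linarith)
      rw [this]
      ring
    · field_simp
      ring
  · -- (c)
    have h1 := hTT W hW0 (by rw [← hW])
    unfold TT at h1
    rw [ex_eq, ← hS] at h1
    have h2 : ∑ p ∈ S, ρ.w p.1 / (L : ℝ) *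
        ((∑ y ∈ ini n L \ A, ((max (W + gy (n - L) k (ρ.st p.1) p.2 X m y) 0) ^ 2 - W ^ 2)) /
          ((A.card : ℝ) + 1) +
        (max (W - (∑ E ∈ X, m E - hh (ρ.st p.1) p.2 X m)) 0) ^ 2 *
          (gg (n - L) k (ρ.st p.1) p.2 X m / hh (ρ.st p.1) p.2 X m) - W ^ 2) =
        ∑ p ∈ S, w p * ((∑ y ∈ ini n L \ A, (ph θ (θ + W + g p y) - ph θ (θ + W))) /
          ((A.card : ℝ) + 1) + (G p * H p - W ^ 2)) := by
      refine Finset.sum_congr rfl fun p _ => ?_
      rw [hw]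
      change ρ.w p.1 / (L : ℝ) * _ = ρ.w p.1 / (L : ℝ) * _
      congr 1
      rw [← hW]
      have e1 : hh (ρ.st p.1) p.2 X m = H p := by rw [hH]
      have e2 : gg (n - L) k (ρ.st p.1) p.2 X m = G p := by rw [hG]
      have e3 : ∀ y, gy (n - L) k (ρ.st p.1) p.2 X m y = g p y := by intro y; rw [hg]
      simp only [e1, e2, e3]
      have e4 : ph θ (θ + W) = W ^ 2 := by
        unfold ph
        rw [show θ + W - θ = W by ring, max_eq_left hW0]
      have e6 : ∀ y, ph θ (θ + W + g p y) = (max (W + g p y) 0) ^ 2 := by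
        intro y
        unfold ph
        rw [show θ + W + g p y - θ = W + g p y by ring]
      rw [e4]
      simp only [e6]
      rw [add_sub_assoc]
      congr 1
      have e7 : max (W - (W - H p)) 0 = H p := by
        rw [show W - (W - H p) = H p by ring, max_eq_left (hH0 p)]
      rw [e7]
      by_cases hp0 : H p = 0
      · rw [hp0]
        simp
      · field_simp
    have h3 : 0 ≤ ∑ p ∈ S, w p * ((∑ y ∈ ini n L \ A, (ph θ (θ + W + g p y) - ph θ (θ + W))) /
          ((A.card : ℝ) + 1) + (G p * H p - W ^ 2)) := by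
      rw [← h2]
      exact h1
    rw [lin] at h3
    have h4 : ∀ p ∈ S, w p * ((∑ y ∈ ini n L \ A, (ph θ (a0 + W + g p y) - ph θ (a0 + W))) /
          ((A.card : ℝ) + 1) + ((ph θ (a0 + H p) - ph θ (a0 + W)) +
          (G p - H p) * ((ph θ (a0 + H p) - ph θ a0) / H p))) =
        w p * ((∑ y ∈ ini n L \ A, (ph θ (a0 + W + g p y) - ph θ (a0 + W))) /
          ((A.card : ℝ) + 1) + (2 * (a0 - θ) * (G p - W) + (G p * H p - W ^ 2))) := by
      intro p _
      congr 2
      have e4 : ph θ (a0 + W) = (a0 + W - θ) ^ 2 := by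
        unfold ph
        rw [max_eq_left (by linarith)]
      have e5 : ph θ a0 = (a0 - θ) ^ 2 := by
        unfold ph
        rw [max_eq_left (by linarith)]
      have e7 : ph θ (a0 + H p) = (a0 + H p - θ) ^ 2 := by
        unfold ph
        rw [max_eq_left (by linarith [hH0 p])]
      rw [e4, e5, e7]
      by_cases hp0 : H p = 0
      · rw [hG0 p hp0, hp0]
        simp
        ring
      · field_simp
        ring
    rw [Finset.sum_congr rfl h4, lin]
    have h5 : ∑ p ∈ S, w p * (2 * (a0 - θ) * (G p - W) + (G p * H p - W ^ 2)) =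
        2 * (a0 - θ) * (∑ p ∈ S, w p * G p - W) + ∑ p ∈ S, w p * (G p * H p - W ^ 2) := by
      have e1 : ∀ p ∈ S, w p * (2 * (a0 - θ) * (G p - W) + (G p * H p - W ^ 2)) =
          2 * (a0 - θ) * (w p * G p) - 2 * (a0 - θ) * W * w p + w p * (G p * H p - W ^ 2) := by
        intro p _
        ring
      rw [Finset.sum_congr rfl e1, Finset.sum_add_distrib, Finset.sum_sub_distrib,
        ← Finset.mul_sum, ← Finset.mul_sum, hw1]
      ring
    rw [h5]
    have h6 : (∑ y ∈ ini n L \ A, ∑ p ∈ S, w p * (ph θ (θ + W + g p y) - ph θ (θ + W))) /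
          ((A.card : ℝ) + 1) ≤
        (∑ y ∈ ini n L \ A, ∑ p ∈ S, w p * (ph θ (a0 + W + g p y) - ph θ (a0 + W))) /
          ((A.card : ℝ) + 1) := by
      refine div_le_div_of_nonneg_right (Finset.sum_le_sum fun y _ => ?_) hA1.le
      exact hMNB _ S w (fun p => g p y) θ (θ + W) (a0 + W) hw0 hw1 (hEg y) (by linarith)
    have h7 : 0 ≤ 2 * (a0 - θ) * (∑ p ∈ S, w p * G p - W) :=
      mul_nonneg (by linarith) (by linarith)
    linarith

end Pool.Agent.DPF.H41
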