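import Pool.Agent.DPF.Stmts

/-!
# Squad DPF, rows END and DSC
-/

namespace Pool.Agent.DPF.H41

open Finset Pool.Agent.DPS

theorem card_ini {n l : ℕ} (h : l ≤ n) : (ini n l).card = l := by
  unfold ini
  rw [Fin.card_filter_val_lt, min_eq_right h]

theorem mem_ini {n l : ℕ} {x : Fin n} : x ∈ ini n l ↔ x.val < l := by
  unfold ini
  rw [Finset.mem_filter]
  exact and_iff_right (Finset.mem_univ _)

theorem mem_star {n k : ℕ} {T F : Finset (Fin n)} :
    F ∈ fullStar k T ↔ F.card = k ∧ T ⊆ F := by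
  unfold fullStar
  rw [Finset.mem_filter, Finset.mem_powersetCard]
  constructor
  · rintro ⟨⟨-, h1⟩, h2⟩
    exact ⟨h1, h2⟩
  · rintro ⟨h1, h2⟩
    exact ⟨⟨Finset.subset_univ _, h1⟩, h2⟩

theorem degree_map {n k : ℕ} (σ : Equiv.Perm (Fin n)) (T R : Finset (Fin n)) :
    degree (fullStar k (T.map σ.toEmbedding)) (R.map σ.toEmbedding) =
      degree (fullStar k T) R := by
  unfold degree
  refine (Finset.card_bij (fun F _ => F.map σ.toEmbedding) ?_ ?_ ?_).symm
  · intro F hF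
    obtain ⟨h1, h2⟩ := Finset.mem_filter.1 hF
    obtain ⟨h3, h4⟩ := mem_star.1 h1
    refine Finset.mem_filter.2 ⟨mem_star.2 ⟨?_, ?_⟩, ?_⟩
    · rw [Finset.card_map, h3]
    · exact Finset.map_subset_map.2 h4
    · exact Finset.map_subset_map.2 h2
  · intro F _ F' _ h
    exact Finset.map_injective _ h
  · intro F hF
    obtain ⟨h1, h2⟩ := Finset.mem_filter.1 hF
    obtain ⟨h3, h4⟩ := mem_star.1 h1
    have h5 : (F.map σ.symm.toEmbedding).map σ.toEmbedding = F := by
      rw [Finset.map_map]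
      have : σ.symm.toEmbedding.trans σ.toEmbedding = Function.Embedding.refl _ := by
        ext x
        simp
      rw [this, Finset.map_refl]
    refine ⟨F.map σ.symm.toEmbedding, Finset.mem_filter.2 ⟨mem_star.2 ⟨?_, ?_⟩, ?_⟩, h5⟩
    · rw [Finset.card_map, h3]
    · rw [← h5] at h4
      exact Finset.map_subset_map.1 h4
    · rw [← h5] at h2
      exact Finset.map_subset_map.1 h2

theorem exists_perm {n : ℕ} {T T' : Finset (Fin n)} (h : T.card = T'.card) :
    ∃ σ : Equiv.Perm (Fin n), T.map σ.toEmbedding = T' := by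
  classical
  have e : T ≃ T' := Finset.equivOfCardEq h
  refine ⟨e.extendSubtype, ?_⟩
  ext x
  rw [Finset.mem_map]
  constructor
  · rintro ⟨y, hy, rfl⟩
    have h1 := Equiv.extendSubtype_apply_of_mem e y hy
    change e.extendSubtype y ∈ T'
    rw [h1]
    exact (e ⟨y, hy⟩).2
  · intro hx
    refine ⟨(e.symm ⟨x, hx⟩).1, (e.symm ⟨x, hx⟩).2, ?_⟩
    have h1 := Equiv.extendSubtype_apply_of_mem e (e.symm ⟨x, hx⟩).1 (e.symm ⟨x, hx⟩).2
    change e.extendSubtype (e.symm ⟨x, hx⟩).1 = x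
    rw [h1]
    simp

theorem lam_star {n k r : ℕ} (θ : ℝ) {T T' : Finset (Fin n)} (h : T.card = T'.card) :
    Lam r θ (fullStar k T) = Lam r θ (fullStar k T') := by
  obtain ⟨σ, rfl⟩ := exists_perm h
  unfold Lam
  refine Finset.sum_bij (fun R _ => R.map σ.toEmbedding) ?_ ?_ ?_ ?_
  · intro R hR
    rw [Finset.mem_powersetCard] at hR ⊢
    exact ⟨Finset.subset_univ _, by rw [Finset.card_map, hR.2]⟩
  · intro R _ R' _ h
    exact Finset.map_injective _ h
  · intro R hR
    rw [Finset.mem_powersetCard] at hR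
    refine ⟨R.map σ.symm.toEmbedding, ?_, ?_⟩
    · rw [Finset.mem_powersetCard]
      exact ⟨Finset.subset_univ _, by rw [Finset.card_map, hR.2]⟩
    · rw [Finset.map_map]
      have : σ.symm.toEmbedding.trans σ.toEmbedding = Function.Embedding.refl _ := by
        ext x
        simp
      rw [this, Finset.map_refl]
  · intro R _
    rw [degree_map]

/-- END -/
theorem end_ (hINC : INCStmt) : ENDStmt := by
  intro n k t r θ htn
  refine ⟨?_, fun T T' h => lam_star θ h, ?_⟩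
  · intro 𝒯 hT K hK
    unfold fam at hK
    obtain ⟨h1, h2⟩ := Finset.mem_filter.1 hK
    refine mem_star.2 ⟨(Finset.mem_powersetCard.1 h1).2, ?_⟩
    have h3 := hT.int _ h2 _ h2
    rw [Finset.inter_self] at h3
    have h4 : K ∩ ini n t = ini n t :=
      Finset.eq_of_subset_of_card_le Finset.inter_subset_right (by rw [card_ini htn]; exact h3)
    rw [← h4]
    exact Finset.inter_subset_left
  · intro A hA hI
    have huniv : ini n n = Finset.univ := by
      ext x
      rw [mem_ini]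
      exact ⟨fun _ => Finset.mem_univ _, fun _ => x.2⟩
    refine ⟨⟨?_, ?_, ?_⟩, ?_⟩
    · intro E _
      rw [huniv]
      exact Finset.subset_univ _
    · intro E hE E' hEE' hE'
      unfold upc at hE ⊢
      obtain ⟨-, a, ha, haE⟩ := Finset.mem_filter.1 hE
      exact Finset.mem_filter.2 ⟨Finset.mem_powerset.2 hE', a, ha, haE.trans hEE'⟩
    · intro E hE E' hE'
      unfold upc at hE hE'
      obtain ⟨-, a, ha, haE⟩ := Finset.mem_filter.1 hE
      obtain ⟨-, a', ha', haE'⟩ := Finset.mem_filter.1 hE'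
      exact (hI a ha a' ha').trans (Finset.card_le_card (Finset.inter_subset_inter haE haE'))
    · have h1 : A ⊆ fam k n A := by
        intro K hK
        unfold fam
        refine Finset.mem_filter.2 ⟨hA hK, ?_⟩
        rw [huniv, Finset.inter_univ]
        exact hK
      exact h1.trans ((hINC n r θ).2 k n A)

/-- DSC -/
theorem dsc (hSTE : STEStmt) (hEND : ENDStmt) (hINC : INCStmt) : DSCStmt := by
  intro n k t r θ hRUL ht htk hn A hA hI T hT
  have htn : t ≤ n := by
    have h1 : 1 ≤ k - t + 1 := by omega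
    calc t ≤ t + 1 := Nat.le_succ t
      _ ≤ (t + 1) * (k - t + 1) := Nat.le_mul_of_pos_right _ h1
      _ ≤ n := hn
  obtain ⟨e1, e2, e3⟩ := hEND n k t r θ htn
  obtain ⟨g, hs⟩ := e3 A hA hI
  have key : ∀ d l : ℕ, l = t + d → l ≤ n → ∀ 𝒯 : Finset (Finset (Fin n)), Gd n l t 𝒯 →
      ∃ 𝒯' : Finset (Finset (Fin n)), Gd n t t 𝒯' ∧
        Lam r θ (fam k l 𝒯) ≤ Lam r θ (fam k t 𝒯') := by
    intro d
    induction d with
    | zero =>
      rintro l rfl _ 𝒯 h𝒯
      exact ⟨𝒯, h𝒯, le_rfl⟩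
    | succ d ih =>
      rintro l rfl hl 𝒯 h𝒯
      obtain ⟨𝒯₁, g1, l1⟩ := hSTE n k t r θ (⟨t + d, by omega⟩ : Fin n) 𝒯 hRUL ht
        (Nat.le_add_right t d) htk hn h𝒯
      obtain ⟨𝒯₂, g2, l2⟩ := ih (t + d) rfl (by omega) 𝒯₁ g1
      exact ⟨𝒯₂, g2, l1.trans l2⟩
  obtain ⟨𝒯', g', hle⟩ := key (n - t) n (by omega) le_rfl _ g
  calc Lam r θ A ≤ Lam r θ (fam k n (upc n A)) := (hINC n r θ).1 _ _ hs
    _ ≤ Lam r θ (fam k t 𝒯') := hle
    _ ≤ Lam r θ (fullStar k (ini n t)) := (hINC n r θ).1 _ _ (e1 _ g')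
    _ = Lam r θ (fullStar k T) := e2 _ _ (by rw [card_ini htn, hT])

end Pool.Agent.DPF.H41
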